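import Pool.Agent.Helper30.ML.Goals

set_option autoImplicit false

namespace Pool.Agent.Helper12.ML

open Pool.Agent.Helper30.ML
open Pool.Agent.Helper94.KC (Proper InChain KStep KEq AllEq dR QG Even2)

theorem comp_cr {V : Type} (p q : V) (f : V → Fin 5) (h : f p = f q) : f ∘ cr p q = f := by
  funext v
  show f (cr p q v) = f v
  unfold cr
  by_cases hv : v = q
  · rw [if_pos hv, hv, h]
  · rw [if_neg hv]

theorem proper_cr {V : Type} (G : SimpleGraph V) (p q : V) (f : V → Fin 5) (h : f p = f q)
    (hf : Proper G f) : Proper (QG G (cr p q)) f := by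
  rintro x y ⟨-, u, v, rfl, rfl, huv⟩
  have h1 : ∀ u, f (cr p q u) = f u := fun u => congrFun (comp_cr p q f h) u
  rw [h1, h1]
  exact hf u v huv

theorem pKP (hKL : Pool.Agent.Helper94.KC.StmtKL) : Pool.Agent.Helper30.ML.StmtKP := by
  intro V _ G p q hall f g hf hg hfp hgp
  have h1 := hKL V G (cr p q) f g
    (hall f g (proper_cr G p q f hfp hf) (proper_cr G p q g hgp hg))
  rw [comp_cr p q f hfp, comp_cr p q g hgp] at h1
  exact h1

end Pool.Agent.Helper12.ML
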